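import Pool.Agent.Lib.MP_4b1e7e_an.Asy.Lower

set_option autoImplicit false

/-!
# MP_4b1e7e_an: the sharp asymptotic coefficient bound for Moebius transforms of convex maps
-/

namespace Pool.Agent.Results.MP_4b1e7e_an.AsymptoticBound

open Pool.Agent.MobConv Metric Filter Topology
open scoped ENNReal

/-- The class of the Moebius transforms `f / (1 - f / w)`, `w` not in `f(disc)` (`w = ∞` allowed),
of the normalised convex maps `f`. -/
def SHat : Set (ℂ → ℂ) :=
  {g | ∃ f, IsConvexMap f ∧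
    (g = f ∨ ∃ w : ℂ, w ∉ f '' ball 0 1 ∧ g = fun z => f z / (1 - f z / w))}

theorem limsup_eq_of_tendsto {g : ℂ → ℂ} {L : ℝ}
    (h : Tendsto (fun n => ‖tcoeff g n‖) atTop (𝓝 L)) :
    limsup (fun n => ‖tcoeff g n‖ₑ) atTop = ENNReal.ofReal L := by
  have h1 : Tendsto (fun n => ‖tcoeff g n‖ₑ) atTop (𝓝 (ENNReal.ofReal L)) := by
    have h2 := ENNReal.tendsto_ofReal h
    refine h2.congr fun n => ?_
    rw [ofReal_norm]
  exact h1.limsup_eq

/-- For every convex map `f` and every finite `w` outside `f(disc)` the moduli of the coefficients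
of `f / (1 - f / w)` converge, to a limit `≤ π ^ 2 / 4`; and the supremum over the class of the
upper limits of the moduli of the coefficients is exactly `π ^ 2 / 4`. -/
theorem result :
    (∀ f : ℂ → ℂ, IsConvexMap f → ∀ w : ℂ, w ∉ f '' ball 0 1 →
      ∃ L : ℝ, L ≤ Real.pi ^ 2 / 4 ∧
        Tendsto (fun n => ‖tcoeff (fun z => f z / (1 - f z / w)) n‖) atTop (𝓝 L)) ∧
    IsLUB {L : ℝ≥0∞ | ∃ g ∈ SHat, L = limsup (fun n => ‖tcoeff g n‖ₑ) atTop}
      (ENNReal.ofReal (Real.pi ^ 2 / 4)) := by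
  have hπ := Real.pi_gt_three
  refine ⟨fun f hf w hw => ?_, ?_, ?_⟩
  · obtain ⟨L, -, h1, h2⟩ := hf.limit hw
    exact ⟨L, h1, h2⟩
  · rintro L ⟨g, ⟨f, hf, hg | ⟨w, hw, hg⟩⟩, rfl⟩
    · rw [hg]
      refine limsup_le_of_le (by isBoundedDefault) ?_
      filter_upwards [eventually_ge_atTop 1] with n hn
      rw [← ofReal_norm]
      refine ENNReal.ofReal_le_ofReal ((hf.coeff_le n hn).trans ?_)
      nlinarith
    · obtain ⟨L, -, h1, h2⟩ := hf.limit hw
      rw [hg, limsup_eq_of_tendsto h2]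
      exact ENNReal.ofReal_le_ofReal h1
  · intro b hb
    -- the vertical strips with parameter tending to `π`
    have hlim : Tendsto (fun x : ℝ => ENNReal.ofReal (x ^ 2 / 4)) (𝓝[<] Real.pi)
        (𝓝 (ENNReal.ofReal (Real.pi ^ 2 / 4))) := by
      refine ENNReal.tendsto_ofReal ?_
      have h1 : ContinuousAt (fun x : ℝ => x ^ 2 / 4) Real.pi := by fun_prop
      exact h1.mono_left nhdsWithin_le_nhds
    refine le_of_tendsto hlim ?_
    filter_upwards [Ioo_mem_nhdsLT (show (0 : ℝ) < Real.pi by linarith)] with x hx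
    obtain ⟨L, hL, hLlim⟩ := strip_limit hx.1 hx.2
    refine (ENNReal.ofReal_le_ofReal hL).trans ?_
    rw [← limsup_eq_of_tendsto hLlim]
    exact hb ⟨_, ⟨strip x, strip_convexMap hx.1 hx.2, Or.inr ⟨_, strip_notMem hx.1 hx.2, rfl⟩⟩, rfl⟩

end Pool.Agent.Results.MP_4b1e7e_an.AsymptoticBound
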