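import Pool.Agent.Lib.MP_4b1e7e_an.Coeff
import Pool.Agent.Lib.MP_4b1e7e_an.Num

set_option autoImplicit false

/-!
# MP_4b1e7e_an: a lower bound for the uniform coefficient bound of Moebius transforms of convex maps
-/

namespace Pool.Agent.Results.MP_4b1e7e_an.LowerBound

open Pool.Agent.MobConv Metric Finset
open scoped ENNReal

/-- The class of the Moebius transforms `f / (1 - f / w)`, `w` not in `f(disc)` (`w = ∞` allowed),
of the normalised convex maps `f`. -/
def SHat : Set (ℂ → ℂ) :=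
  {g | ∃ f, IsConvexMap f ∧
    (g = f ∨ ∃ w : ℂ, w ∉ f '' ball 0 1 ∧ g = fun z => f z / (1 - f z / w))}

/-- `A n`: the supremum of the moduli of the coefficients of order `n` over the class. -/
noncomputable def A (n : ℕ) : ℝ≥0∞ := ⨆ g ∈ SHat, ‖tcoeff g n‖ₑ

/-- `B`: the supremum of `A n` over `n ≥ 2`. -/
noncomputable def B : ℝ≥0∞ := ⨆ n : ℕ, ⨆ _ : 2 ≤ n, A n

theorem exists_big : ∃ g ∈ SHat, 2.6 < ‖tcoeff g 400‖ := by
  have hpl := Real.pi_gt_d20
  have hpl' : (3.1415 : ℝ) < Real.pi := by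
    norm_num at hpl ⊢
    linarith
  have hx0 : 0 < Real.pi - 1 / 100 := by linarith
  have hxpi : Real.pi - 1 / 100 < Real.pi := by linarith
  obtain ⟨r, hr0, hr, hco⟩ := hat_props hx0 hxpi
  have hs : 0 < Real.sin (Real.pi - 1 / 100) := sin_pos' hx0 hxpi
  refine ⟨_, ⟨strip (Real.pi - 1 / 100), strip_convexMap hx0 hxpi,
    Or.inr ⟨_, strip_notMem hx0 hxpi, rfl⟩⟩, ?_⟩
  rw [hco 400 (by norm_num), norm_mul, Complex.norm_real, Real.norm_eq_abs,
    abs_of_pos (by positivity)]
  -- the real sequence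
  have hre0 : (fun n => (r n).re) 0 = 1 := by
    show (r 0).re = 1
    rw [hr0]
    rfl
  have hre : ∀ n, (fun n => (r n).re) (n + 1) =
      ∑ i ∈ range (n + 1), pr (i + 1) * (fun n => (r n).re) (n - i) := by
    intro n
    show (r (n + 1)).re = _
    rw [hr, Complex.re_sum]
    refine sum_congr rfl fun i _ => ?_
    rw [Complex.re_ofReal_mul]
    congr 1
    rw [pr]
    have h1 : Real.sin ((i + 1) * (Real.pi - 1 / 100)) =
        (-1) ^ i * Real.sin ((i + 1) / 100) := by
      have h2 : ((i : ℝ) + 1) * (Real.pi - 1 / 100) =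
          ((i + 1 : ℕ) : ℝ) * Real.pi - ((i : ℝ) + 1) / 100 := by
        push_cast
        ring
      rw [h2, Real.sin_nat_mul_pi_sub]
      ring
    rw [h1]
    push_cast
    have h3 : ((-1 : ℝ) ^ i) * (-1) ^ i = 1 := by
      rw [← mul_pow]; norm_num
    congr 1
    linear_combination (2 * Real.sin (((i : ℝ) + 1) / 100)) * h3
  have h4 := num_bound (fun n => (r n).re) hre0 hre
  have h5 : 0.0166238 ≤ ‖r 400‖ := h4.trans ((le_abs_self _).trans (Complex.abs_re_le_norm _))
  have h6 : Real.sin (Real.pi - 1 / 100) < 1 / 100 := by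
    rw [Real.sin_pi_sub]
    exact Real.sin_lt (by norm_num)
  have h7 : (156.57 : ℝ) ≤ (Real.pi - 1 / 100) / (2 * Real.sin (Real.pi - 1 / 100)) := by
    rw [le_div_iff₀ (by linarith)]
    nlinarith
  calc (2.6 : ℝ) < 156.57 * 0.0166238 := by norm_num
    _ ≤ _ := mul_le_mul h7 h5 (by norm_num) (by positivity)

/-- The coefficient of order 400 of some function of the class has modulus `> 2.6`; hence
`B > 2.6`. -/
theorem result : ENNReal.ofReal 2.6 < A 400 ∧ ENNReal.ofReal 2.6 < B := by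
  obtain ⟨g, hg, hlt⟩ := exists_big
  have h1 : ENNReal.ofReal 2.6 < ‖tcoeff g 400‖ₑ := by
    have h2 : ENNReal.ofReal 2.6 < ENNReal.ofReal ‖tcoeff g 400‖ :=
      (ENNReal.ofReal_lt_ofReal_iff (by linarith)).mpr hlt
    rwa [ofReal_norm] at h2
  have h3 : ENNReal.ofReal 2.6 < A 400 :=
    h1.trans_le (le_iSup₂ (f := fun g _ => ‖tcoeff g 400‖ₑ) g hg)
  exact ⟨h3, h3.trans_le (le_iSup₂ (f := fun n _ => A n) 400 (by norm_num))⟩

end Pool.Agent.Results.MP_4b1e7e_an.LowerBound
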