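import Pool.Agent.Lib.MP_4b1e7e_an.T3.MaxP
import Pool.Agent.Lib.MP_4b1e7e_an.T3.Target
import Pool.Agent.Lib.MP_4b1e7e_an.T3.Coef3
import Pool.Agent.Lib.MP_4b1e7e_an.T3.Strip3
import Pool.Agent.Lib.MP_4b1e7e_an.Asy.Coef1

set_option autoImplicit false

/-!
# MP_4b1e7e_an: the sharp bound of the third coefficient of Moebius transforms of convex maps
-/

namespace Pool.Agent.Results.MP_4b1e7e_an.ThirdCoefficient

open Pool.Agent.MobConv Pool.Agent.MobConv.T3 Metric Filter Topology ComplexConjugate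
open scoped ENNReal

/-- The class of the Moebius transforms `f / (1 - f / w)`, `w` not in `f(disc)` (`w = ∞` allowed),
of the normalised convex maps `f`. -/
def SHat : Set (ℂ → ℂ) :=
  {g | ∃ f, IsConvexMap f ∧
    (g = f ∨ ∃ w : ℂ, w ∉ f '' ball 0 1 ∧ g = fun z => f z / (1 - f z / w))}

/-- `A n`: the supremum of the moduli of the coefficients of order `n` over the class. -/
noncomputable def A (n : ℕ) : ℝ≥0∞ := ⨆ g ∈ SHat, ‖tcoeff g n‖ₑ

/-- The third coefficient of `f / (1 - f / f(1))` for the vertical strip map `f` with parameter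
`ξ ∈ (0, π)`. -/
noncomputable def b (ξ : ℝ) : ℝ :=
  (2 * Real.sin ξ / ξ - Real.cos ξ) ^ 2 - Real.sin ξ ^ 2 / 3

/-- The supremum of `b3` on `[-1, 1]`. -/
private noncomputable def M : ℝ := sSup (b3 '' Set.Icc (-1) 1)

private theorem M_ge : 15423 / 10000 ≤ M := sSup_ge

private theorem b3_cont : Continuous b3 := by
  unfold b3
  have := AA_cont
  fun_prop

private theorem exists_max : ∃ ξ : ℝ, 0 < ξ ∧ ξ < Real.pi ∧ b ξ = M := by
  obtain ⟨x, hx, hmax⟩ := (isCompact_Icc (a := (-1 : ℝ)) (b := 1)).exists_sSup_image_eq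
    ⟨0, by norm_num⟩ b3_cont.continuousOn
  have hM : M = b3 x := hmax
  have hge := M_ge
  have hx1 : x ≠ 1 := by
    rintro rfl
    rw [hM, b3, AA_one] at hge
    norm_num at hge
  have hx2 : x ≠ -1 := by
    rintro rfl
    rw [hM, b3, AA_neg_one] at hge
    norm_num at hge
  have h1 : x < 1 := lt_of_le_of_ne hx.2 hx1
  have h2 : -1 < x := lt_of_le_of_ne hx.1 (Ne.symm hx2)
  have h3 : 0 < Real.arccos (-x) := Real.arccos_pos.2 (by linarith)
  have h4 : Real.arccos (-x) < Real.pi := by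
    refine lt_of_le_of_ne (Real.arccos_le_pi _) fun h => ?_
    have := Real.cos_arccos (x := -x) (by linarith) (by linarith)
    rw [h, Real.cos_pi] at this
    linarith
  refine ⟨Real.arccos (-x), h3, h4, ?_⟩
  have h5 : Real.cos (Real.arccos (-x)) = -x := Real.cos_arccos (by linarith) (by linarith)
  have h6 := AA_cos h3 h4.le
  rw [h5, neg_neg] at h6
  rw [b, Real.sin_sq, h5, ← h6, hM, b3]
  ring

private theorem b_eq {η : ℝ} (h0 : 0 < η) (h1 : η ≤ Real.pi) : b η = b3 (-Real.cos η) := by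
  rw [b, b3, AA_cos h0 h1, Real.sin_sq]
  ring

private theorem b3_le {x : ℝ} (hx : x ∈ Set.Icc (-1 : ℝ) 1) : b3 x ≤ M :=
  le_csSup ((isCompact_Icc.image b3_cont).bddAbove) ⟨x, hx, rfl⟩

private theorem b_le {η : ℝ} (h0 : 0 < η) (h1 : η ≤ Real.pi) : b η ≤ M := by
  rw [b_eq h0 h1]
  exact b3_le ⟨by linarith [Real.cos_le_one η], by linarith [Real.neg_one_le_cos η]⟩

/-- The bound for the dilations. -/
private theorem dil_le {f : ℂ → ℂ} (hf : IsConvexMap f) {w : ℂ} (hw : w ∉ f '' ball (0 : ℂ) 1)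
    {r : ℝ} (hr0 : 0 < r) (hr1 : r < 1) :
    ‖aa (dil f r) (w / r) 0 ^ 2 + sg (dil f r) 0 / 3‖ ≤ M := by
  have h0 : (0 : ℂ) ∈ ball (0 : ℂ) 1 := by simp
  have hM := M_ge
  have hg := dil_convexMap hf hr0 hr1
  have hm := mm_dil_lt hf hr0 hr1 h0
  have hs := (second hg hm).1
  set a : ℂ := aa (dil f r) (w / r) 0 with ha
  set s : ℂ := sg (dil f r) 0 with hsd
  set m : ℂ := mm (dil f r) 0 with hmd
  rcases lt_or_ge ‖a‖ 1 with h | h
  · have h1 : ‖a ^ 2 + s / 3‖ ≤ ‖a‖ ^ 2 + ‖s‖ / 3 := by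
      refine (norm_add_le _ _).trans (le_of_eq ?_)
      rw [norm_pow, norm_div]
      norm_num
    have h2 := norm_nonneg a
    have h3 := sq_nonneg ‖m‖
    nlinarith
  · have hP := Phi_le hf hw hr0 hr1 h0 h
    rw [Phi, ← ha] at hP
    have hpos : 0 < ‖a‖ := by linarith
    have hane : a ≠ 0 := norm_pos_iff.1 hpos
    have hxm : xx (dil f r) (w / r) 0 ^ 2 ≤ ‖m‖ ^ 2 := by
      rw [xx, ← ha, ← hmd, div_pow, div_le_iff₀ (by positivity), ← mul_pow]
      have h5 : |(m * conj a).re| ≤ ‖m‖ * ‖a‖ := by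
        refine (Complex.abs_re_le_norm _).trans (le_of_eq ?_)
        rw [norm_mul, RCLike.norm_conj]
      exact sq_le_sq.2 (h5.trans (le_abs_self _))
    obtain ⟨x, hx⟩ : ∃ x, x = xx (dil f r) (w / r) 0 := ⟨_, rfl⟩
    obtain ⟨S, hS⟩ : ∃ S, S = Sr (dil f r) (w / r) 0 := ⟨_, rfl⟩
    rw [← hx] at hxm hP
    rw [← hS] at hP
    have hm2 : ‖m‖ ^ 2 ≤ 1 := by
      have := norm_nonneg m
      nlinarith
    have hx1 : x ∈ Set.Icc (-1 : ℝ) 1 :=
      abs_le.1 ((sq_le_one_iff_abs_le_one x).1 (by linarith))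
    obtain ⟨τ, hτ⟩ : ∃ τ, τ = (s * conj a ^ 2).im / ‖a‖ ^ 2 := ⟨_, rfl⟩
    have hSτ : S ^ 2 + τ ^ 2 = ‖s‖ ^ 2 := by
      rw [hS, Sr, ← ha, ← hsd, hτ, div_pow, div_pow, ← add_div, div_eq_iff (by positivity)]
      have h5 : (s * conj a ^ 2).re ^ 2 + (s * conj a ^ 2).im ^ 2 =
          ‖s * conj a ^ 2‖ ^ 2 := by
        rw [← Complex.normSq_eq_norm_sq, Complex.normSq_apply]; ring
      rw [h5, norm_mul, norm_pow, RCLike.norm_conj]
      ring
    have hb : S ^ 2 + τ ^ 2 ≤ (1 - x ^ 2) ^ 2 := by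
      rw [hSτ]
      exact pow_le_pow_left₀ (norm_nonneg _) (by linarith) 2
    have ht := target hx1 (sq_nonneg ‖a‖) (by linarith) hb
    have hn : ‖a ^ 2 + s / 3‖ ^ 2 = (‖a‖ ^ 2 + S / 3) ^ 2 + (τ / 3) ^ 2 := by
      have h5 : (a ^ 2 + s / 3) * conj a ^ 2 =
          (‖a‖ ^ 2 : ℝ) * (((‖a‖ ^ 2 + S / 3 : ℝ) : ℂ) + ((τ / 3 : ℝ) : ℂ) * Complex.I) := by
        have h6 : a * conj a = ((‖a‖ ^ 2 : ℝ) : ℂ) := by
          rw [Complex.mul_conj, Complex.normSq_eq_norm_sq]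
        have h7 : s * conj a ^ 2 = (‖a‖ ^ 2 : ℝ) * (((S : ℝ) : ℂ) + (τ : ℂ) * Complex.I) := by
          rw [← Complex.re_add_im (s * conj a ^ 2), hS, Sr, ← ha, ← hsd, hτ]
          have h8 : (‖a‖ : ℂ) ≠ 0 := by exact_mod_cast hpos.ne'
          push_cast
          field_simp
        have h9 : (a ^ 2 + s / 3) * conj a ^ 2 = (a * conj a) ^ 2 + s * conj a ^ 2 / 3 := by
          ring
        rw [h9, h6, h7]
        push_cast
        ring
      have h6 : ‖(a ^ 2 + s / 3) * conj a ^ 2‖ ^ 2 = ‖a ^ 2 + s / 3‖ ^ 2 * (‖a‖ ^ 2) ^ 2 := by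
        rw [norm_mul, norm_pow, RCLike.norm_conj]
        ring
      rw [h5, norm_mul, Complex.norm_real, Real.norm_of_nonneg (by positivity), mul_pow,
        ← Complex.normSq_eq_norm_sq (_ + _), Complex.normSq_add_mul_I] at h6
      have h7 : 0 < (‖a‖ ^ 2) ^ 2 := by positivity
      have h8 : (‖a‖ ^ 2) ^ 2 * ((‖a‖ ^ 2 + S / 3) ^ 2 + (τ / 3) ^ 2) =
          (‖a‖ ^ 2) ^ 2 * ‖a ^ 2 + s / 3‖ ^ 2 := by rw [h6]; ring
      exact (mul_left_cancel₀ h7.ne' h8).symm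
    rw [← hn] at ht
    exact (abs_le_of_sq_le_sq' ht (show 0 ≤ M by linarith)).2

private theorem coeff_le {f : ℂ → ℂ} (hf : IsConvexMap f) {w : ℂ}
    (hw : w ∉ f '' ball (0 : ℂ) 1) : ‖tcoeff (fun z => f z / (1 - f z / w)) 3‖ ≤ M := by
  have h1 : ∀ r : ℝ, 0 < r → r < 1 →
      r ^ 2 * ‖tcoeff (fun z => f z / (1 - f z / w)) 3‖ ≤ M := by
    intro r hr0 hr1
    have h2 := coef3 (dil_convexMap hf hr0 hr1) (dil_notMem hw hr0 hr1)
    rw [tcoeff_dil hf hw hr0 hr1] at h2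
    have h3 := dil_le hf hw hr0 hr1
    rw [← h2, norm_mul, norm_pow, Complex.norm_real, Real.norm_of_nonneg hr0.le] at h3
    exact h3
  have h2 : Tendsto (fun r : ℝ => r ^ 2 * ‖tcoeff (fun z => f z / (1 - f z / w)) 3‖)
      (𝓝[<] 1) (𝓝 (1 ^ 2 * ‖tcoeff (fun z => f z / (1 - f z / w)) 3‖)) := by
    have h3 : ContinuousAt (fun r : ℝ => r ^ 2 *
        ‖tcoeff (fun z => f z / (1 - f z / w)) 3‖) 1 := by fun_prop
    exact h3.mono_left nhdsWithin_le_nhds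
  rw [one_pow, one_mul] at h2
  refine le_of_tendsto h2 ?_
  filter_upwards [Ioo_mem_nhdsLT (show (0 : ℝ) < 1 by norm_num)] with r hr
  exact h1 r hr.1 hr.2

/-- The sharp bound of the third coefficient: the function `b` attains its maximum over `(0, π)` at
some `ξ`, the supremum `A 3` of `|a₃|` over the class is `b ξ`, and it is attained by
`f / (1 - f / w)`, where `f` is the convex map onto the vertical strip
`(ξ - π) / (2 sin ξ) < Re W < ξ / (2 sin ξ)` and `w = ξ / (2 sin ξ)`. -/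
theorem result :
    ∃ ξ : ℝ, 0 < ξ ∧ ξ < Real.pi ∧ (∀ η : ℝ, 0 < η → η < Real.pi → b η ≤ b ξ) ∧
      A 3 = ENNReal.ofReal (b ξ) ∧ 1.5423 ≤ b ξ ∧
      ∃ f : ℂ → ℂ, IsConvexMap f ∧
        f '' ball 0 1 = {W : ℂ | (ξ - Real.pi) / (2 * Real.sin ξ) < W.re ∧
          W.re < ξ / (2 * Real.sin ξ)} ∧
        tcoeff (fun z => f z / (1 - f z / ((ξ / (2 * Real.sin ξ) : ℝ) : ℂ))) 3 =
          ((b ξ : ℝ) : ℂ) := by
  obtain ⟨ξ, h0, h1, hξ⟩ := exists_max
  have hM := M_ge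
  have hs := strip3 h0 h1
  rw [← b_eq h0 h1.le] at hs
  refine ⟨ξ, h0, h1, fun η e0 e1 => ?_, ?_, ?_, strip ξ, strip_convexMap h0 h1,
    strip_image h0 h1, hs⟩
  · rw [hξ]; exact b_le e0 e1.le
  · apply le_antisymm
    · refine iSup₂_le fun g hg => ?_
      rw [← ofReal_norm]
      apply ENNReal.ofReal_le_ofReal
      rw [hξ]
      obtain ⟨f, hf, hg | ⟨w, hw, hg⟩⟩ := hg
      · rw [hg]
        exact (hf.coeff_le 3 (by norm_num)).trans (by linarith)
      · rw [hg]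
        exact coeff_le hf hw
    · have hmem : (fun z => strip ξ z / (1 - strip ξ z / ((ξ / (2 * Real.sin ξ) : ℝ) : ℂ))) ∈
          SHat := ⟨strip ξ, strip_convexMap h0 h1, Or.inr ⟨_, strip_notMem h0 h1, rfl⟩⟩
      refine le_trans (le_of_eq ?_) (le_iSup₂ (f := fun g _ => ‖tcoeff g 3‖ₑ) _ hmem)
      rw [hs, ← ofReal_norm, Complex.norm_real, Real.norm_of_nonneg (by rw [hξ]; linarith)]
  · rw [hξ]; norm_num; linarith

end Pool.Agent.Results.MP_4b1e7e_an.ThirdCoefficient
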