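import Pool.Agent.Lib.MP_4b1e7e_an.Up5

set_option autoImplicit false

/-!
# MP_4b1e7e_an: an explicit uniform bound of the coefficients of Moebius transforms of convex maps
-/

namespace Pool.Agent.Results.MP_4b1e7e_an.UpperBound

open Pool.Agent.MobConv Metric
open scoped ENNReal

/-- The class of the Moebius transforms `f / (1 - f / w)`, `w` not in `f(disc)` (`w = ∞` allowed),
of the normalised convex maps `f`. -/
def SHat : Set (ℂ → ℂ) :=
  {g | ∃ f, IsConvexMap f ∧
    (g = f ∨ ∃ w : ℂ, w ∉ f '' ball 0 1 ∧ g = fun z => f z / (1 - f z / w))}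

/-- `A n`: the supremum of the moduli of the coefficients of order `n` over the class. -/
noncomputable def A (n : ℕ) : ℝ≥0∞ := ⨆ g ∈ SHat, ‖tcoeff g n‖ₑ

/-- `B`: the supremum of `A n` over `n ≥ 2`. -/
noncomputable def B : ℝ≥0∞ := ⨆ n : ℕ, ⨆ _ : 2 ≤ n, A n

theorem exp_small : Real.exp (81 / 100) ≤ 2.248 := by
  have h := Real.exp_bound' (x := 81 / 100) (by norm_num) (by norm_num) (n := 9) (by norm_num)
  refine h.trans ?_
  norm_num [Finset.sum_range_succ, Nat.factorial]

theorem exp_mid : Real.exp (339 / 2000) ≤ 1.1848 := by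
  have h := Real.exp_bound' (x := 339 / 2000) (by norm_num) (by norm_num) (n := 6) (by norm_num)
  refine h.trans ?_
  norm_num [Finset.sum_range_succ, Nat.factorial]

theorem exp_big : Real.exp (4339 / 2000) ≤ 8.8 := by
  have h1 : (4339 / 2000 : ℝ) = 1 + 1 + 339 / 2000 := by norm_num
  have h2 := Real.exp_one_lt_d9
  have h3 := exp_mid
  rw [h1, Real.exp_add, Real.exp_add]
  have h4 := Real.exp_pos 1
  have h5 := Real.exp_pos (339 / 2000)
  have h6 : Real.exp 1 * Real.exp 1 ≤ 7.3891 := by nlinarith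
  calc Real.exp 1 * Real.exp 1 * Real.exp (339 / 2000) ≤ 7.3891 * 1.1848 :=
        mul_le_mul h6 h3 h5.le (by norm_num)
    _ ≤ 8.8 := by norm_num

/-- Every function of the class has all coefficients of modulus at most `8.8`. -/
theorem coeff_le {f : ℂ → ℂ} (hf : IsConvexMap f) {w : ℂ} (hw : w ∉ f '' ball 0 1) {n : ℕ}
    (hn : 1 ≤ n) : ‖tcoeff (fun z => f z / (1 - f z / w)) n‖ ≤ 8.8 := by
  have hp1 := Real.pi_gt_d4
  have hp2 := Real.pi_lt_d4
  set c : ℝ := Real.pi / (2 * (9 / 10)) with hc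
  have hc1 : 1.74527 ≤ c := by
    rw [hc, le_div_iff₀ (by norm_num)]
    norm_num at hp1 ⊢
    linarith
  have hc2 : c ≤ 1.74534 := by
    rw [hc, div_le_iff₀ (by norm_num)]
    norm_num at hp2 ⊢
    linarith
  have hs : (0 : ℝ) < 233 / 1000 := by norm_num
  rcases le_total ‖w‖ (233 / 1000 * (233 / 1000 + c) * n) with h | h
  · have h1 := hf.coeff_small hw (q := 9 / 10) (by norm_num) hs hn h
    refine h1.trans ?_
    have h2 : Real.exp ((9 / 10) ^ 2) ≤ 2.248 := by
      have : ((9 : ℝ) / 10) ^ 2 = 81 / 100 := by norm_num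
      rw [this]
      exact exp_small
    have h3 : (233 / 1000 + c) ^ 2 ≤ 3.91384 := by nlinarith
    calc Real.exp ((9 / 10) ^ 2) * (233 / 1000 + c) ^ 2 ≤ 2.248 * 3.91384 :=
          mul_le_mul h2 h3 (sq_nonneg _) (by norm_num)
      _ ≤ 8.8 := by norm_num
  · have h1 := hf.coeff_large' hw (t := 233 / 1000 * (233 / 1000 + c)) (by positivity) hn h
    refine h1.trans (le_trans (Real.exp_le_exp.2 ?_) exp_big)
    rw [div_le_div_iff₀ (by positivity) (by norm_num)]
    nlinarith

/-- **`B ≤ 8.8`.** -/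
theorem result : B ≤ ENNReal.ofReal 8.8 := by
  refine iSup₂_le fun n hn => iSup₂_le fun g hg => ?_
  rw [← ofReal_norm]
  refine ENNReal.ofReal_le_ofReal ?_
  obtain ⟨f, hf, hg | ⟨w, hw, hg⟩⟩ := hg
  · rw [hg]
    have := hf.coeff_le n (by omega)
    norm_num at this ⊢
    linarith
  · rw [hg]
    exact coeff_le hf hw (by omega)

end Pool.Agent.Results.MP_4b1e7e_an.UpperBound
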